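import Mathlib

namespace Pool.Agent.Results.MP_6f7bab_an.Span

open Filter

/-- The shift on one-sided sequences. -/
def sh {A : Type} (x : ℕ → A) : ℕ → A := fun n => x (n + 1)

open Classical in
/-- `D(x,y) = d(x_Δ, y_Δ) k^(-Δ)` with `Δ` the first index of disagreement, `D(x,x) = 0`. -/
noncomputable def D {A : Type} (d : A → A → ℝ) (k : ℕ) (x y : ℕ → A) : ℝ :=
  if h : ∃ n, x n ≠ y n then d (x (Nat.find h)) (y (Nat.find h)) / (k : ℝ) ^ Nat.find h else 0

/-- `ρ` is a metric on the set `S`. -/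
def IsMetricOn {B : Type} (S : Set B) (ρ : B → B → ℝ) : Prop :=
  (∀ x ∈ S, ∀ y ∈ S, 0 ≤ ρ x y ∧ (ρ x y = 0 ↔ x = y) ∧ ρ x y = ρ y x) ∧
    ∀ x ∈ S, ∀ y ∈ S, ∀ z ∈ S, ρ x z ≤ ρ x y + ρ y z

/-- The Bowen distance `D_T`. -/
noncomputable def DT {A : Type} (d : A → A → ℝ) (k T : ℕ) (x y : ℕ → A) : ℝ :=
  ⨆ t : Fin T, D d k (sh^[t] x) (sh^[t] y)

/-- `S` is a finite `ε`-spanning subset of `X` for `D_T`. -/
def Spans {A : Type} (X : Set (ℕ → A)) (d : A → A → ℝ) (k : ℕ) (ε : ℝ) (T : ℕ)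
    (S : Finset (ℕ → A)) : Prop :=
  (∀ y ∈ S, y ∈ X) ∧ ∀ x ∈ X, ∃ y ∈ S, DT d k T x y ≤ ε

/-- The least size of a spanning set. -/
noncomputable def span {A : Type} (X : Set (ℕ → A)) (d : A → A → ℝ) (k : ℕ) (ε : ℝ) (T : ℕ) :
    ℕ := sInf {n | ∃ S, Spans X d k ε T S ∧ S.card = n}

/-- The metric on the four letters: `1` is close to `0` and `2`, all other pairs are far. -/
def dn (a b : Fin 4) : ℕ :=
  if a = b then 0 else if (a = 1 ∧ b ≠ 3) ∨ (b = 1 ∧ a ≠ 3) then 1 else 2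

/-- The same, real valued. -/
def dd (a b : Fin 4) : ℝ := dn a b

/-- The subshift. -/
def XX : Set (ℕ → Fin 4) :=
  {s | (∀ j i l, j < i → i < l → s j = 3 → s l = 3 → s i ≠ 1) ∧
    ∀ k j, (∀ p i q, j ≤ p → p < i → i < q → q < j + 8 ^ (k + 1) → s p = 3 → s q = 3 → s i = 3) ∨
      ∀ i, 2 * 8 ^ k ≤ i → s (j + i) = 3}

lemma dn_le : ∀ a b, dn a b ≤ 2 := by decide
lemma dn_pos : ∀ a b, a ≠ b → 1 ≤ dn a b := by decide
lemma dn_self : ∀ a, dn a a = 0 := by decide
lemma dn_symm : ∀ a b, dn a b = dn b a := by decide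
lemma dn_tri : ∀ a b c, dn a c ≤ dn a b + dn b c := by decide
lemma dn_one : ∀ a, a ≠ 3 → dn a 1 ≤ 1 := by decide
lemma dn_three : ∀ b, dn 3 b ≤ 1 → b = 3 := by decide
lemma dn_eq : ∀ a b, a ≠ 1 → b ≠ 1 → dn a b ≤ 1 → b = a := by decide

lemma dd_le (a b) : dd a b ≤ 2 := by unfold dd; exact_mod_cast dn_le a b
lemma dd_pos (a b) (h : a ≠ b) : 1 ≤ dd a b := by unfold dd; exact_mod_cast dn_pos a b h
lemma dd_nonneg (a b) : 0 ≤ dd a b := by unfold dd; positivity
lemma dd_tri (a b c) : dd a c ≤ dd a b + dd b c := by unfold dd; exact_mod_cast dn_tri a b c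

lemma D_eq (x y : ℕ → Fin 4) (n : ℕ) (h1 : x n ≠ y n) (h2 : ∀ m < n, x m = y m) :
    D dd 2 x y = dd (x n) (y n) / 2 ^ n := by
  classical
  have h : ∃ n, x n ≠ y n := ⟨n, h1⟩
  have : ∀ i : DecidablePred fun n => x n ≠ y n, @Nat.find _ i h = n := fun i =>
    (Nat.find_eq_iff h).2 ⟨h1, fun m hm => not_not.2 (h2 m hm)⟩
  unfold D
  rw [dif_pos h, this]
  simp only [Nat.cast_ofNat]

lemma D_self (x : ℕ → Fin 4) : D dd 2 x x = 0 := by simp [D]

lemma first (x y : ℕ → Fin 4) (h : x ≠ y) : ∃ n, x n ≠ y n ∧ ∀ m < n, x m = y m := by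
  classical
  have h : ∃ n, x n ≠ y n := Function.ne_iff.1 h
  exact ⟨Nat.find h, Nat.find_spec h, fun m hm => not_not.1 (Nat.find_min h hm)⟩

lemma D_nonneg (x y : ℕ → Fin 4) : 0 ≤ D dd 2 x y := by
  by_cases h : x = y
  · rw [h, D_self]
  · obtain ⟨n, h1, h2⟩ := first x y h
    rw [D_eq x y n h1 h2]
    have := dd_nonneg (x n) (y n)
    positivity

lemma D_le (x y : ℕ → Fin 4) (n : ℕ) (h2 : ∀ m ≤ n, x m = y m) : D dd 2 x y ≤ 1 / 2 ^ n := by
  by_cases h : x = y
  · rw [h, D_self]; positivity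
  · obtain ⟨r, h1, h3⟩ := first x y h
    rw [D_eq x y r h1 h3]
    have hr : n + 1 ≤ r := by
      by_contra hc
      exact h1 (h2 r (by omega))
    have h4 : (2 : ℝ) ^ (n + 1) ≤ 2 ^ r := pow_le_pow_right₀ (by norm_num) hr
    have := dd_le (x r) (y r)
    rw [div_le_div_iff₀ (by positivity) (by positivity)]
    have h5 : (0 : ℝ) < 2 ^ n := by positivity
    rw [pow_succ] at h4
    nlinarith

lemma D_symm (x y : ℕ → Fin 4) : D dd 2 x y = D dd 2 y x := by
  by_cases h : x = y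
  · rw [h]
  · obtain ⟨n, h1, h2⟩ := first x y h
    rw [D_eq x y n h1 h2, D_eq y x n h1.symm fun m hm => (h2 m hm).symm]
    unfold dd
    rw [dn_symm]

lemma D_tri (x y z : ℕ → Fin 4) : D dd 2 x z ≤ D dd 2 x y + D dd 2 y z := by
  by_cases hxy : x = y
  · rw [hxy, D_self, zero_add]
  by_cases hyz : y = z
  · rw [hyz, D_self, add_zero]
  obtain ⟨a, a1, a2⟩ := first x y hxy
  obtain ⟨b, b1, b2⟩ := first y z hyz
  rcases lt_trichotomy a b with h | h | h
  · have e := b2 a h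
    rw [D_eq x z a (e ▸ a1) fun m hm => (a2 m hm).trans (b2 m (by omega)), D_eq x y a a1 a2, e]
    linarith [D_nonneg y z]
  · subst h
    rw [D_eq x y a a1 a2, D_eq y z a b1 b2]
    by_cases hz : x a = z a
    · have := D_le x z a fun m hm => by
        rcases hm.lt_or_eq with h | h
        · exact (a2 m h).trans (b2 m h)
        · rw [h, hz]
      refine this.trans ?_
      rw [← add_div]
      gcongr
      linarith [dd_pos _ _ a1, dd_pos _ _ b1]
    · rw [D_eq x z a hz fun m hm => (a2 m hm).trans (b2 m hm), ← add_div]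
      gcongr
      exact dd_tri _ _ _
  · have e := a2 b h
    rw [D_eq x z b (e ▸ b1) fun m hm => (a2 m (by omega)).trans (b2 m hm), D_eq y z b b1 b2, e]
    linarith [D_nonneg x y]

lemma D_zero (x y : ℕ → Fin 4) : D dd 2 x y = 0 ↔ x = y := by
  refine ⟨fun h => ?_, fun h => h ▸ D_self x⟩
  by_contra hc
  obtain ⟨n, h1, h2⟩ := first x y hc
  rw [D_eq x y n h1 h2] at h
  have := dd_pos _ _ h1
  have : 0 < dd (x n) (y n) / 2 ^ n := by positivity
  linarith

lemma D_le_one (x y : ℕ → Fin 4) : D dd 2 x y ≤ 1 ↔ dn (x 0) (y 0) ≤ 1 := by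
  by_cases h : x 0 = y 0
  · have := D_le x y 0 fun m hm => by rw [Nat.le_zero.1 hm, h]
    rw [h, dn_self]
    simpa using this
  · rw [D_eq x y 0 h (by simp)]
    simp [dd]

lemma sh_iter {A : Type} (t : ℕ) (x : ℕ → A) (n : ℕ) : sh^[t] x n = x (n + t) := by
  induction t generalizing x n with
  | zero => rfl
  | succ t ih => rw [Function.iterate_succ_apply, ih]; rfl

lemma DT_le (T : ℕ) (x y : ℕ → Fin 4) : DT dd 2 T x y ≤ 1 ↔ ∀ t < T, dn (x t) (y t) ≤ 1 := by
  constructor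
  · intro h t ht
    have h1 := (le_ciSup (f := fun t : Fin T => D dd 2 (sh^[t] x) (sh^[t] y))
      (Finite.bddAbove_range _) ⟨t, ht⟩).trans h
    simpa [D_le_one, sh_iter] using h1
  · intro h
    refine Real.iSup_le (fun t => ?_) zero_le_one
    rw [D_le_one, sh_iter, sh_iter, zero_add]
    exact h t t.2

lemma closed : IsClosed XX := by
  unfold XX
  simp only [Set.ofPred_and, Set.ofPred_forall (ι := ℕ), Set.ofPred_or]
  refine IsClosed.inter ?_ ?_
  · refine isClosed_iInter fun j => isClosed_iInter fun i => isClosed_iInter fun l => ?_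
    exact (isClosed_discrete {p : Fin 4 × Fin 4 × Fin 4 |
      j < i → i < l → p.1 = 3 → p.2.1 = 3 → p.2.2 ≠ 1}).preimage
      (f := fun s : ℕ → Fin 4 => (s j, s l, s i)) (by fun_prop)
  · refine isClosed_iInter fun k => isClosed_iInter fun j => IsClosed.union ?_ ?_
    · refine isClosed_iInter fun p => isClosed_iInter fun i => isClosed_iInter fun q => ?_
      exact (isClosed_discrete {u : Fin 4 × Fin 4 × Fin 4 | j ≤ p → p < i → i < q →
        q < j + 8 ^ (k + 1) → u.1 = 3 → u.2.1 = 3 → u.2.2 = 3}).preimage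
        (f := fun s : ℕ → Fin 4 => (s p, s q, s i)) (by fun_prop)
    · refine isClosed_iInter fun i => ?_
      exact (isClosed_discrete {u : Fin 4 | 2 * 8 ^ k ≤ i → u = 3}).preimage
        (f := fun s : ℕ → Fin 4 => s (j + i)) (by fun_prop)

lemma inv : ∀ x ∈ XX, sh x ∈ XX := by
  rintro x ⟨h1, h2⟩
  refine ⟨fun j i l a b => h1 _ _ _ (by omega) (by omega), fun k j => ?_⟩
  rcases h2 k (j + 1) with h | h
  · exact Or.inl fun p i q a b c e => h _ _ _ (by omega) (by omega) (by omega) (by omega)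
  · refine Or.inr fun i hi => ?_
    have := h i hi
    rwa [show j + 1 + i = j + i + 1 by ring] at this

lemma ex_span (T : ℕ) : ∃ S, Spans XX dd 2 1 T S := by
  classical
  have h : ∀ w : Fin T → Fin 4, ∃ y ∈ XX, (∃ x ∈ XX, ∀ t : Fin T, x t = w t) →
      ∀ t : Fin T, y t = w t := by
    intro w
    by_cases h : ∃ x ∈ XX, ∀ t : Fin T, x t = w t
    · obtain ⟨x, hx, h⟩ := h
      exact ⟨x, hx, fun _ => h⟩
    · exact ⟨fun _ => 3, ⟨by simp, by simp⟩, fun h' => absurd h' h⟩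
  choose g hg hw using h
  refine ⟨Finset.univ.image g, fun y hy => ?_, fun x hx => ?_⟩
  · obtain ⟨w, -, rfl⟩ := Finset.mem_image.1 hy
    exact hg w
  · refine ⟨g fun t => x t, Finset.mem_image_of_mem _ (Finset.mem_univ _), ?_⟩
    rw [DT_le]
    intro t ht
    rw [hw _ ⟨x, hx, fun _ => rfl⟩ ⟨t, ht⟩, dn_self]
    exact zero_le_one

/-- The centres. -/
def cen (pq : ℕ × ℕ) : ℕ → Fin 4 := fun i => if pq.1 ≤ i ∧ i < pq.2 then 3 else 1

lemma cen_mem (pq : ℕ × ℕ) : cen pq ∈ XX := by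
  have h : ∀ j i l, j < i → i < l → cen pq j = 3 → cen pq l = 3 → cen pq i = 3 := by
    intro j i l a b c e
    unfold cen at *
    split_ifs at c e with h1 h2
    · rw [if_pos (by omega)]
    all_goals exact absurd ‹(1 : Fin 4) = 3› (by decide)
  refine ⟨fun j i l a b c e => ?_, fun k j => Or.inl fun p i q _ b c _ => h p i q b c⟩
  rw [h j i l a b c e]
  decide

lemma upper (k : ℕ) :
    span XX dd 2 1 (8 ^ (k + 1)) ≤ (8 ^ (k + 1) + 1) ^ 2 + 4 ^ (2 * 8 ^ k) := by
  classical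
  obtain ⟨T, hT⟩ : ∃ T, T = 8 ^ (k + 1) := ⟨_, rfl⟩
  obtain ⟨N, hN⟩ : ∃ N, N = 2 * 8 ^ k := ⟨_, rfl⟩
  rw [← hT, ← hN]
  let ext : (Fin N → Fin 4) → ℕ → Fin 4 := fun w i => if h : i < N then w ⟨i, h⟩ else 3
  let S : Finset (ℕ → Fin 4) := (Finset.range (T + 1) ×ˢ Finset.range (T + 1)).image cen ∪
    (Finset.univ.image ext).filter (· ∈ XX)
  have hS : Spans XX dd 2 1 T S := by
    refine ⟨fun y hy => ?_, fun x hx => ?_⟩
    · rcases Finset.mem_union.1 hy with h | h
      · obtain ⟨w, -, rfl⟩ := Finset.mem_image.1 h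
        exact cen_mem w
      · exact (Finset.mem_filter.1 h).2
    · rcases hx.2 k 0 with h | h
      · rw [zero_add, ← hT] at h
        let B := (Finset.range T).filter (x · = 3)
        have hB : ∀ t, t ∈ B ↔ t < T ∧ x t = 3 := by simp [B]
        by_cases hne : B.Nonempty
        · have h1 := (hB _).1 (B.min'_mem hne)
          have h2 := (hB _).1 (B.max'_mem hne)
          refine ⟨cen (B.min' hne, B.max' hne + 1), Finset.mem_union_left _
            (Finset.mem_image_of_mem _ (Finset.mem_product.2 ⟨Finset.mem_range.2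
              (Nat.lt_succ_of_lt h1.1), Finset.mem_range.2 (Nat.succ_lt_succ h2.1)⟩)),
            (DT_le _ _ _).2 fun t ht => ?_⟩
          by_cases h3 : x t = 3
          · have a := B.min'_le t ((hB t).2 ⟨ht, h3⟩)
            have b := B.le_max' t ((hB t).2 ⟨ht, h3⟩)
            unfold cen
            rw [if_pos ⟨a, by simp; omega⟩, h3]
            decide
          · unfold cen
            rw [if_neg]
            · exact dn_one _ h3
            · rintro ⟨a, b⟩
              have a' : B.min' hne ≠ t := fun e => h3 (e ▸ h1.2)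
              have b' : B.max' hne ≠ t := fun e => h3 (e ▸ h2.2)
              simp only at a b
              exact h3 (h _ t _ (Nat.zero_le _) (by omega) (by omega) h2.1 h1.2 h2.2)
        · refine ⟨cen (0, 0), Finset.mem_union_left _
            (Finset.mem_image_of_mem _ (by simp)), (DT_le _ _ _).2 fun t ht => ?_⟩
          unfold cen
          rw [if_neg (by simp)]
          exact dn_one _ fun h3 => hne ⟨t, (hB t).2 ⟨ht, h3⟩⟩
      · refine ⟨x, Finset.mem_union_right _ (Finset.mem_filter.2 ⟨Finset.mem_image.2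
          ⟨fun i => x i, Finset.mem_univ _, ?_⟩, hx⟩), (DT_le _ _ _).2 fun t _ => by
            rw [dn_self]; exact zero_le_one⟩
        funext i
        simp only [ext]
        split_ifs with hi
        · rfl
        · have := h i (by omega)
          rw [zero_add] at this
          exact this.symm
  have h0 : span XX dd 2 1 T ≤ S.card := Nat.sInf_le ⟨S, hS, rfl⟩
  refine h0.trans ((Finset.card_union_le _ _).trans (add_le_add ?_ ?_))
  · refine Finset.card_image_le.trans ?_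
    simp [sq]
  · refine (Finset.card_filter_le _ _).trans (Finset.card_image_le.trans ?_)
    simp

lemma lower (k n : ℕ) (hn : n + 2 = 2 * 8 ^ k) : 2 ^ n ≤ span XX dd 2 1 (n + 2) := by
  classical
  obtain ⟨S, hS, hc⟩ := Nat.sInf_mem (s := {m | ∃ S, Spans XX dd 2 1 (n + 2) S ∧ S.card = m})
    (by obtain ⟨S, h⟩ := ex_span (n + 2); exact ⟨_, S, h, rfl⟩)
  unfold span
  rw [← hc]
  let pt : (Fin n → Bool) → ℕ → Fin 4 := fun w i =>
    if h : 1 ≤ i ∧ i - 1 < n then (if w ⟨i - 1, h.2⟩ then 2 else 0) else 3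
  have h1 : ∀ w i, pt w i ≠ 1 := by
    intro w i
    simp only [pt]
    split_ifs <;> decide
  have h3 : ∀ w i, pt w i = 3 ↔ ¬(1 ≤ i ∧ i - 1 < n) := by
    intro w i
    simp only [pt]
    split_ifs with h h' <;> simp [h]
  have hm : ∀ w, pt w ∈ XX := by
    intro w
    refine ⟨fun j i l _ _ _ _ => h1 w i, fun k' j => ?_⟩
    by_cases hk : k' < k
    · refine Or.inl fun p i q a b c e => ?_
      have : 8 ^ (k' + 1) ≤ 8 ^ k := Nat.pow_le_pow_right (by norm_num) hk
      have : 1 ≤ 8 ^ k := Nat.one_le_pow _ _ (by norm_num)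
      have : 8 ≤ 8 ^ (k' + 1) → 8 ≤ 8 ^ k := fun h => h.trans ‹_›
      have := this (by rw [pow_succ]; have := Nat.one_le_pow k' 8 (by norm_num); omega)
      simp only [h3]
      omega
    · refine Or.inr fun i hi => ?_
      have : 8 ^ k ≤ 8 ^ k' := Nat.pow_le_pow_right (by norm_num) (by omega)
      rw [h3]
      omega
  choose g hg hd using fun w => hS.2 (pt w) (hm w)
  have key : ∀ w i, 1 ≤ i → i ≤ n → g w i = pt w i := by
    intro w i a b
    have hd' := (DT_le _ _ _).1 (hd w)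
    have e0 := hd' 0 (by omega)
    have e1 := hd' (n + 1) (by omega)
    rw [(h3 w _).2 (by omega)] at e0 e1
    exact dn_eq _ _ (h1 w i) ((hS.1 _ (hg w)).1 0 i (n + 1) (by omega) (by omega)
      (dn_three _ e0) (dn_three _ e1)) (hd' i (by omega))
  have := Finset.card_le_card_of_injOn (s := Finset.univ) (t := S) g (fun w _ => hg w) (by
    intro w _ w' _ e
    funext i
    have a := key w (i + 1) (by omega) (by omega)
    rw [e, key w' (i + 1) (by omega) (by omega)] at a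
    simp only [pt] at a
    rw [dif_pos ⟨by omega, by simp⟩, dif_pos ⟨by omega, by simp⟩] at a
    simp only [Nat.add_sub_cancel, Fin.eta] at a
    revert a
    cases w i <;> cases w' i <;> decide)
  simpa using this

theorem result : ∃ (a : ℕ) (X : Set (ℕ → Fin a)) (d : Fin a → Fin a → ℝ) (k : ℕ) (ε : ℝ),
    X.Nonempty ∧ IsClosed X ∧ (∀ x ∈ X, sh x ∈ X) ∧ IsMetricOn Set.univ d ∧ 1 < k ∧
    IsMetricOn X (D d k) ∧ 0 < ε ∧ (∀ T, ∃ S, Spans X d k ε T S) ∧
    liminf (fun T : ℕ => ((Real.log (span X d k ε T) / T : ℝ) : EReal)) atTop <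
      limsup (fun T : ℕ => ((Real.log (span X d k ε T) / T : ℝ) : EReal)) atTop := by
  refine ⟨4, XX, dd, 2, 1, ⟨_, cen_mem (0, 0)⟩, closed, inv, ⟨fun x _ y _ => ⟨dd_nonneg _ _,
    ⟨fun h => ?_, fun h => by simp [dd, h, dn_self]⟩, by unfold dd; rw [dn_symm]⟩,
    fun x _ y _ z _ => dd_tri _ _ _⟩, by norm_num, ⟨fun x _ y _ => ⟨D_nonneg _ _, D_zero _ _,
    D_symm _ _⟩, fun x _ y _ z _ => D_tri _ _ _⟩, one_pos, ex_span, ?_⟩
  · by_contra hc
    linarith [dd_pos _ _ hc]
  have l2 := Real.log_pos one_lt_two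
  have hu : ∀ N : ℕ, N ≤ 8 ^ (N + 1) ∧ 8 ≤ 8 ^ (N + 1) := fun N => by
    have := Nat.lt_pow_self (n := N + 1) (show 1 < 8 by norm_num)
    have := Nat.one_le_pow N 8 (by norm_num)
    rw [pow_succ] at *
    omega
  refine lt_of_le_of_lt (b := ((3 / 4 * Real.log 2 : ℝ) : EReal))
    (liminf_le_of_frequently_le' (frequently_atTop.2 fun N => ?_))
    (lt_of_lt_of_le (b := ((7 / 8 * Real.log 2 : ℝ) : EReal)) (EReal.coe_lt_coe_iff.2 (by linarith))
    (le_limsup_of_frequently_le' (frequently_atTop.2 fun N => ?_)))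
  · have h := upper (N + 1)
    obtain ⟨a, b⟩ := hu N
    rw [pow_succ 8 (N + 1)] at h
    generalize 8 ^ (N + 1) = u at h a b
    refine ⟨u * 8, by omega, EReal.coe_le_coe_iff.2 ?_⟩
    have h1 : u < 2 ^ u := Nat.lt_two_pow_self
    have h2 : 2 ^ 8 ≤ 2 ^ u := Nat.pow_le_pow_right (by norm_num) b
    have h3 : (u * 8 + 1) ^ 2 + 4 ^ (2 * u) ≤ 2 ^ (6 * u) := by
      have e1 : 4 ^ (2 * u) = (2 ^ u) ^ 4 := by
        rw [show 4 = 2 ^ 2 by norm_num, ← pow_mul, ← pow_mul]; congr 1; ring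
      have e2 : 2 ^ (6 * u) = (2 ^ u) ^ 6 := by rw [← pow_mul, mul_comm]
      rw [e1, e2]
      generalize 2 ^ u = v at *
      have : u * 8 + 1 ≤ v ^ 2 := by nlinarith
      have : (u * 8 + 1) ^ 2 ≤ (v ^ 2) ^ 2 := Nat.pow_le_pow_left this 2
      have : 2 * v ^ 4 ≤ v ^ 2 * v ^ 4 := Nat.mul_le_mul_right _ (by nlinarith)
      nlinarith
    have hu0 : (0 : ℝ) < u := by exact_mod_cast (by omega : 0 < u)
    rw [div_le_iff₀ (by positivity)]
    have h4 : Real.log (span XX dd 2 1 (u * 8)) ≤ Real.log (2 ^ (6 * u)) := by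
      rcases Nat.eq_zero_or_pos (span XX dd 2 1 (u * 8)) with h0 | h0
      · rw [h0, Nat.cast_zero, Real.log_zero]
        exact Real.log_nonneg (one_le_pow₀ (by norm_num))
      · exact Real.log_le_log (by exact_mod_cast h0) (by exact_mod_cast h.trans h3)
    rw [Real.log_pow] at h4
    push_cast at h4 ⊢
    linarith
  · obtain ⟨a, b⟩ := hu N
    obtain ⟨n, hn⟩ : ∃ n, n + 2 = 2 * 8 ^ (N + 1) := ⟨2 * 8 ^ (N + 1) - 2, by omega⟩
    have h := lower _ n hn
    refine ⟨n + 2, by omega, EReal.coe_le_coe_iff.2 ?_⟩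
    have h4 : Real.log (2 ^ n) ≤ Real.log (span XX dd 2 1 (n + 2)) :=
      Real.log_le_log (by positivity) (by exact_mod_cast h)
    have h5 : (14 : ℝ) ≤ n := by exact_mod_cast (by omega : 14 ≤ n)
    rw [Real.log_pow] at h4
    rw [le_div_iff₀ (by positivity)]
    push_cast
    nlinarith

end Pool.Agent.Results.MP_6f7bab_an.Span
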